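import Pool.Agent.N408.IB.Stm

/-!
# IB/POL: the polar intersection body (helper487)
-/

set_option autoImplicit false

open Real Set MeasureTheory IB408

namespace N487.IB.POL

noncomputable section

/-- the volume of the section of `K` by the orthogonal complement of `S` -/
def W (K : Set E4) (S : Submodule ℝ E4) : ℝ := (volume {v : Sᗮ | (v : E4) ∈ K}).toReal

theorem t (h1 : S_DEL) : IB408.S_POL := by
  intro h hP hK hV
  obtain ⟨hconv, hcomp, -, hatt⟩ := hK
  obtain ⟨-, -, -, hb, -⟩ := hP
  have hneg : ∀ u : E4, h (arccos (inner ℝ (-u) ax)) = h (π - arccos (inner ℝ u ax)) := by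
    intro u
    rw [inner_neg_left, Real.arccos_neg]
  have hD := h1 (Ks h) (fun u => h (arccos (inner ℝ u ax))) hconv hcomp
    (fun u hu => ⟨fun x hx => hx u hu, hatt u hu⟩)
  have hHe : ∀ u : E4, 0 < (h (arccos (inner ℝ u ax)) + h (π - arccos (inner ℝ u ax))) / 2 := by
    intro u
    have e1 := (abs_le.1 (hb (arccos (inner ℝ u ax)))).1
    have e2 := (abs_le.1 (hb (π - arccos (inner ℝ u ax)))).1
    linarith
  have hπ : 0 < π := Real.pi_pos
  have hV' : ∀ u : E4, ‖u‖ = 1 → (h (arccos (inner ℝ u ax)) + h (π - arccos (inner ℝ u ax))) / 2 *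
      W (Ks h) (Submodule.span ℝ {u}) = 4 * π / 3 := hV
  have hWpos : ∀ u : E4, ‖u‖ = 1 → 0 < W (Ks h) (Submodule.span ℝ {u}) := by
    intro u hu
    have e1 := hV' u hu
    have e2 := hHe u
    by_contra hcon
    have : (h (arccos (inner ℝ u ax)) + h (π - arccos (inner ℝ u ax))) / 2 *
      W (Ks h) (Submodule.span ℝ {u}) ≤ 0 := mul_nonpos_of_nonneg_of_nonpos e2.le (not_lt.1 hcon)
    have : 0 < 4 * π / 3 := by positivity
    linarith
  have hsm : ∀ (r : ℝ) (u : E4), r ≠ 0 → W (Ks h) (Submodule.span ℝ {r • u}) = W (Ks h) (Submodule.span ℝ {u}) := by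
    intro r u hr
    rw [Submodule.span_singleton_smul_eq (IsUnit.mk0 r hr)]
  have key : ∀ x : E4, (∀ y : E4, (y = 0 ∨ ‖y‖ ≤ W (Ks h) (Submodule.span ℝ {y})) → inner ℝ x y ≤ 1) ↔
      ∀ u : E4, ‖u‖ = 1 → inner ℝ ((4 * π / 3) • x) u ≤
        (h (arccos (inner ℝ u ax)) + h (arccos (inner ℝ (-u) ax))) / 2 := by
    intro x
    have hiff : ∀ u : E4, ‖u‖ = 1 → (inner ℝ x u * W (Ks h) (Submodule.span ℝ {u}) ≤ 1 ↔
        inner ℝ ((4 * π / 3) • x) u ≤ (h (arccos (inner ℝ u ax)) + h (arccos (inner ℝ (-u) ax))) / 2) := by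
      intro u hu
      rw [hneg, real_inner_smul_left, ← hV' u hu]
      have e2 := hHe u
      constructor
      · intro e
        calc (h (arccos (inner ℝ u ax)) + h (π - arccos (inner ℝ u ax))) / 2 * W (Ks h) (Submodule.span ℝ {u}) *
              inner ℝ x u = (h (arccos (inner ℝ u ax)) + h (π - arccos (inner ℝ u ax))) / 2 *
              (inner ℝ x u * W (Ks h) (Submodule.span ℝ {u})) := by ring
          _ ≤ (h (arccos (inner ℝ u ax)) + h (π - arccos (inner ℝ u ax))) / 2 * 1 :=
              mul_le_mul_of_nonneg_left e e2.le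
          _ = _ := by ring
      · intro e
        have e3 : (h (arccos (inner ℝ u ax)) + h (π - arccos (inner ℝ u ax))) / 2 *
              (inner ℝ x u * W (Ks h) (Submodule.span ℝ {u})) ≤
              (h (arccos (inner ℝ u ax)) + h (π - arccos (inner ℝ u ax))) / 2 * 1 := by
          calc _ = (h (arccos (inner ℝ u ax)) + h (π - arccos (inner ℝ u ax))) / 2 *
                W (Ks h) (Submodule.span ℝ {u}) * inner ℝ x u := by ring
            _ ≤ _ := by rw [mul_one]; exact e
        exact le_of_mul_le_mul_left e3 e2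
    constructor
    · intro H u hu
      rw [← hiff u hu]
      have hp := hWpos u hu
      have e1 := H (W (Ks h) (Submodule.span ℝ {u}) • u) (Or.inr (by
        rw [hsm _ _ hp.ne', norm_smul, hu, mul_one, Real.norm_eq_abs, abs_of_pos hp]))
      rw [real_inner_smul_right] at e1
      linarith
    · intro H y hy
      by_cases hy0 : y = 0
      · rw [hy0, inner_zero_right]
        exact zero_le_one
      · have hyle : ‖y‖ ≤ W (Ks h) (Submodule.span ℝ {y}) := hy.resolve_left hy0
        have hn : 0 < ‖y‖ := norm_pos_iff.2 hy0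
        obtain ⟨u, hu⟩ : ∃ u : E4, u = ‖y‖⁻¹ • y := ⟨_, rfl⟩
        have hu1 : ‖u‖ = 1 := by
          rw [hu, norm_smul, norm_inv, norm_norm, inv_mul_cancel₀ hn.ne']
        have hyu : y = ‖y‖ • u := by
          rw [hu, smul_smul, mul_inv_cancel₀ hn.ne', one_smul]
        have hWy : W (Ks h) (Submodule.span ℝ {y}) = W (Ks h) (Submodule.span ℝ {u}) := by
          rw [hu]
          exact (hsm _ _ (inv_ne_zero hn.ne')).symm
        have e1 := (hiff u hu1).2 (H u hu1)
        have e2 : inner ℝ x y = ‖y‖ * inner ℝ x u := by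
          conv_lhs => rw [hyu]
          rw [real_inner_smul_right]
        rw [e2]
        rw [hWy] at hyle
        by_cases hs : inner ℝ x u ≤ 0
        · have : ‖y‖ * inner ℝ x u ≤ 0 := mul_nonpos_of_nonneg_of_nonpos hn.le hs
          linarith
        · push Not at hs
          calc ‖y‖ * inner ℝ x u ≤ W (Ks h) (Submodule.span ℝ {u}) * inner ℝ x u :=
                mul_le_mul_of_nonneg_right hyle hs.le
            _ = inner ℝ x u * W (Ks h) (Submodule.span ℝ {u}) := by ring
            _ ≤ 1 := e1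
  ext x
  constructor
  · intro hx
    have h2 := (hD ((4 * π / 3) • x)).2 ((key x).1 hx)
    refine ⟨(4 * π / 3) • x, h2, ?_⟩
    change (3 / (4 * π)) • (4 * π / 3) • x = x
    rw [smul_smul]
    have : 3 / (4 * π) * (4 * π / 3) = 1 := by
      field_simp
    rw [this, one_smul]
  · rintro ⟨z, hz, rfl⟩
    refine (key _).2 ?_
    have h2 := (hD z).1 hz
    have h3 : (4 * π / 3) • ((fun z : E4 => (3 / (4 * π)) • z) z) = z := by
      change (4 * π / 3) • (3 / (4 * π)) • z = z
      rw [smul_smul]
      have : 4 * π / 3 * (3 / (4 * π)) = 1 := by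
        field_simp
      rw [this, one_smul]
    rw [h3]
    exact h2

end

end N487.IB.POL
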